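import Mathlib

namespace Pool.Agent.Results.MP_870dc7_co.Counter
open Filter

def Small (S : Set ℕ) : Prop := ∃ K, ∀ N, (S ∩ Set.Icc 1 N).ncard ≤ K * (Nat.sqrt N + 1)

lemma fin (A : Set ℕ) (N : ℕ) : (A ∩ Set.Icc 1 N).Finite :=
  (Set.finite_Icc 1 N).subset Set.inter_subset_right

def F : Filter ℕ where
  sets := {S | Small Sᶜ}
  univ_sets := ⟨0, by simp⟩
  sets_of_superset := by
    rintro S T ⟨K, hK⟩ h
    exact ⟨K, fun N => (Set.ncard_le_ncard (Set.inter_subset_inter_left _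
      (Set.compl_subset_compl.2 h)) (fin _ _)).trans (hK N)⟩
  inter_sets := by
    rintro S T ⟨K, hK⟩ ⟨L, hL⟩
    refine ⟨K + L, fun N => ?_⟩
    rw [Set.compl_inter, Set.union_inter_distrib_right, add_mul]
    exact (Set.ncard_union_le _ _).trans (Nat.add_le_add (hK N) (hL N))

instance : F.NeBot := by
  refine ⟨fun h => ?_⟩
  obtain ⟨K, hK⟩ : Small (∅ : Set ℕ)ᶜ := by
    show (∅ : Set ℕ) ∈ F
    rw [h]
    trivial
  have := hK ((K + 1) * (K + 1))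
  rw [Set.compl_empty, Set.univ_inter, Set.ncard_Icc_nat, Nat.sqrt_eq] at this
  have h2 : (K + 1) * (K + 1) + 1 - 1 = (K + 1) * (K + 1) := by omega
  rw [h2] at this
  nlinarith

noncomputable def p : Ultrafilter ℕ := Ultrafilter.of F

lemma large {S : Set ℕ} (h : S ∈ p) (M : ℕ) :
    ∃ N, M ≤ N ∧ Nat.sqrt N ≤ (S ∩ Set.Icc 1 N).ncard := by
  have h1 : ¬ Small S := fun h1 => by
    have : Sᶜ ∈ p := Ultrafilter.of_le F (show Small Sᶜᶜ by rwa [compl_compl])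
    exact (Ultrafilter.compl_mem_iff_notMem.1 this) h
  unfold Small at h1
  push Not at h1
  obtain ⟨N, hN⟩ := h1 (M + 1)
  have h2 := Set.ncard_le_ncard (Set.inter_subset_right (s := S)) (Set.finite_Icc 1 N)
  rw [Set.ncard_Icc_nat] at h2
  refine ⟨N, ?_, ?_⟩ <;> nlinarith [Nat.zero_le (M * Nat.sqrt N), Nat.sub_add_cancel
    (show 1 ≤ N + 1 by omega)]

lemma big (M : ℕ) : {n | M < n} ∈ p := by
  refine Ultrafilter.of_le F ⟨M, fun N => ?_⟩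
  have : ({n | M < n}ᶜ ∩ Set.Icc 1 N).ncard ≤ (Set.Icc 1 M).ncard :=
    Set.ncard_le_ncard (fun x hx => ⟨hx.2.1, not_lt.1 hx.1⟩) (Set.finite_Icc _ _)
  rw [Set.ncard_Icc_nat] at this
  nlinarith [Nat.zero_le (M * Nat.sqrt N), Nat.sub_add_cancel (show 1 ≤ M + 1 by omega)]

def Ok (A : Set ℕ) (s : Set ℕ × Set ℕ) : Prop :=
  s.1.Finite ∧ s.2.Finite ∧ (∀ b ∈ s.1, 0 < b ∧ {c | b + c ∈ A} ∈ p) ∧
    (∀ c ∈ s.2, 0 < c ∧ {b | c + b ∈ A} ∈ p) ∧ ∀ b ∈ s.1, ∀ c ∈ s.2, b + c ∈ A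

lemma step (A : Set ℕ) (hA : {b | {c | b + c ∈ A} ∈ p} ∈ p) (s : {s // Ok A s}) (M : ℕ) :
    ∃ t : {s // Ok A s}, s.1.1 ⊆ t.1.1 ∧ s.1.2 ⊆ t.1.2 ∧ (∃ c ∈ t.1.2, M < c) ∧
      ∃ N, M ≤ N ∧ Nat.sqrt N ≤ (t.1.1 ∩ Set.Icc 1 N).ncard := by
  obtain ⟨⟨B, C⟩, h1, h2, h3, h4, h5⟩ := s
  simp only at h1 h2 h3 h4 h5
  have g1 : (⋂ b ∈ B, {c | b + c ∈ A}) ∈ p := (biInter_mem h1).2 fun b hb => (h3 b hb).2
  obtain ⟨c, ⟨hc1, hc2⟩, hc3⟩ := Ultrafilter.nonempty_of_mem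
    (inter_mem (inter_mem g1 hA) (big M))
  have g2 : (⋂ d ∈ insert c C, {b | d + b ∈ A}) ∈ p := by
    refine (biInter_mem (h2.insert c)).2 ?_
    rintro d (rfl | hd)
    · exact hc2
    · exact (h4 d hd).2
  obtain ⟨N, hN1, hN2⟩ := large (inter_mem g2 hA) M
  refine ⟨⟨(B ∪ (((⋂ d ∈ insert c C, {b | d + b ∈ A}) ∩ {b | {c | b + c ∈ A} ∈ p}) ∩
    Set.Icc 1 N), insert c C), h1.union (fin _ _), h2.insert c, ?_, ?_, ?_⟩,
    Set.subset_union_left, Set.subset_insert _ _, ⟨c, Set.mem_insert _ _, hc3⟩, N, hN1, ?_⟩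
  · rintro b (hb | ⟨⟨_, hb1⟩, hb2, _⟩)
    · exact h3 b hb
    · exact ⟨hb2, hb1⟩
  · rintro d (rfl | hd)
    · exact ⟨lt_of_le_of_lt (Nat.zero_le _) hc3, hc2⟩
    · exact h4 d hd
  · rintro b (hb | ⟨⟨hb1, _⟩, _⟩) d hd
    · rcases hd with rfl | hd
      · exact Set.mem_iInter₂.1 hc1 b hb
      · exact h5 b hb d hd
    · rw [add_comm]
      exact Set.mem_iInter₂.1 hb1 d hd
  · exact hN2.trans (Set.ncard_le_ncard (fun x hx => ⟨Or.inr hx, hx.2⟩) (fin _ _))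

lemma main (A : Set ℕ) (hA : {b | {c | b + c ∈ A} ∈ p} ∈ p) :
    ∃ B C : Set ℕ, 0 ∉ B ∧ 0 ∉ C ∧ B.Infinite ∧ C.Infinite ∧ (∀ b ∈ B, ∀ c ∈ C, b + c ∈ A) ∧
      ∃ᶠ N in atTop, Nat.sqrt N ≤ (B ∩ Set.Icc 1 N).ncard := by
  choose f h1 h2 h3 h4 using step A hA
  let s : ℕ → {s // Ok A s} := fun n =>
    Nat.rec ⟨(∅, ∅), by simp [Ok]⟩ (fun k t => f t k) n
  have m1 : Monotone fun n => (s n).1.1 := monotone_nat_of_le_succ fun n => h1 (s n) n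
  have m2 : Monotone fun n => (s n).1.2 := monotone_nat_of_le_succ fun n => h2 (s n) n
  have hB : ∀ M, ∃ N, M ≤ N ∧ Nat.sqrt N ≤ ((⋃ n, (s n).1.1) ∩ Set.Icc 1 N).ncard := by
    intro M
    obtain ⟨N, g1, g2⟩ := h4 (s M) M
    exact ⟨N, g1, g2.trans (Set.ncard_le_ncard (Set.inter_subset_inter_left _
      (Set.subset_iUnion (fun n => (s n).1.1) (M + 1))) (fin _ _))⟩
  refine ⟨⋃ n, (s n).1.1, ⋃ n, (s n).1.2, ?_, ?_, ?_, ?_, ?_, frequently_atTop.2 hB⟩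
  · intro h
    obtain ⟨n, hn⟩ := Set.mem_iUnion.1 h
    exact lt_irrefl _ ((s n).2.2.2.1 0 hn).1
  · intro h
    obtain ⟨n, hn⟩ := Set.mem_iUnion.1 h
    exact lt_irrefl _ ((s n).2.2.2.2.1 0 hn).1
  · intro h
    set K := (⋃ n, (s n).1.1).ncard
    obtain ⟨N, g1, g2⟩ := hB ((K + 1) * (K + 1))
    have g3 := Set.ncard_le_ncard (Set.inter_subset_left (t := Set.Icc 1 N)) h
    have g4 := Nat.le_sqrt.2 g1
    omega
  · refine Set.infinite_of_forall_exists_gt fun M => ?_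
    obtain ⟨c, g1, g2⟩ := h3 (s M) M
    exact ⟨c, Set.mem_iUnion.2 ⟨M + 1, g1⟩, g2⟩
  · intro b hb c hc
    obtain ⟨n, hn⟩ := Set.mem_iUnion.1 hb
    obtain ⟨k, hk⟩ := Set.mem_iUnion.1 hc
    exact (s (max n k)).2.2.2.2.2 b (m1 (le_max_left n k) hn) c (m2 (le_max_right n k) hk)

theorem result : ∃ H : ℕ → ℕ, Monotone H ∧ Tendsto H atTop atTop ∧ (∀ N, 1 ≤ N → 1 ≤ H N) ∧
    ∀ χ : ℕ → Bool, ∃ B C : Set ℕ, 0 ∉ B ∧ 0 ∉ C ∧ B.Infinite ∧ C.Infinite ∧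
      (∃ i, ∀ b ∈ B, ∀ c ∈ C, χ (b + c) = i) ∧
      ∃ᶠ N in atTop, H N ≤ max (B ∩ Set.Icc 1 N).ncard (C ∩ Set.Icc 1 N).ncard := by
  refine ⟨Nat.sqrt, fun _ _ h => Nat.sqrt_le_sqrt h, ?_, fun N h => Nat.le_sqrt.2 h, fun χ => ?_⟩
  · exact tendsto_atTop_atTop.2 fun K => ⟨K * K, fun N h => Nat.le_sqrt.2 h⟩
  have : ∃ i, {b | {c | b + c ∈ {n | χ n = i}} ∈ p} ∈ p := by
    by_cases h : {b | {c | b + c ∈ {n | χ n = true}} ∈ p} ∈ p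
    · exact ⟨true, h⟩
    · refine ⟨false, mem_of_superset (Ultrafilter.compl_mem_iff_notMem.2 h) fun b hb => ?_⟩
      refine mem_of_superset (Ultrafilter.compl_mem_iff_notMem.2 hb) fun c hc => ?_
      simpa using hc
  obtain ⟨i, hi⟩ := this
  obtain ⟨B, C, h1, h2, h3, h4, h5, h6⟩ := main _ hi
  exact ⟨B, C, h1, h2, h3, h4, ⟨i, h5⟩, h6.mono fun N h => le_max_of_le_left h⟩

end Pool.Agent.Results.MP_870dc7_co.Counter
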